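import Pool.Agent.H28.FF.MEF
import Pool.Agent.H28.FF.Irr
import Pool.Agent.H28.FF.Reg
import Pool.Agent.H28.FF.Lie
import Pool.Agent.H28.FF.LAT
import Pool.Agent.H28.FF.NFree
import Pool.Agent.H28.FF.Alg1
import Pool.Agent.H28.FF.Chain
import Pool.Agent.H28.FF.C1
import Pool.Agent.H28.FF.C2

/-!
# A group measure equivalent to `F₂ × F₂` outside the two classes (MP_6c9f91_an, Q1)

There is a countable group `Γ` which is measure equivalent to `F₂ × F₂`, is not virtually isomorphic to a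
direct product of groups each of which is measure equivalent to a free group, and is not virtually isomorphic
to a lattice of a locally compact group which also contains a lattice virtually isomorphic to `F₂ × F₂`.

The group is `Γ = M ⋊ M`, where `A = ⊕_{i ∈ ℕ} ⟨x_i, u_i | u_i x_i u_i⁻¹ = x_i⁻¹⟩`, `M = F(A) ⋊ A` (the free
product of `A` and an infinite cyclic group), and `M` acts on `M` through
`M → A → ∏_{i ∈ ℕ} ℤ/2` (`u_i ↦ e_i`, `x_i ↦ 0`), `e_i` acting on `A` by `x_i ↦ x_i⁻¹`.
-/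

namespace Pool.Agent.Results.MP_6c9f91_an.Disproof

open Pool.Agent.H28.FF

/-- Class 2: `Γ` is virtually isomorphic to a lattice of a locally compact group `G` which also contains a
lattice virtually isomorphic to `F₂ × F₂`. -/
def ClassTwo (Γ : Type) [Group Γ] : Prop :=
  ∃ (G : Type) (_ : Group G) (_ : TopologicalSpace G) (_ : IsTopologicalGroup G) (_ : T2Space G)
    (_ : LocallyCompactSpace G) (Γ' Λ' : Subgroup G), IsLatt Γ' ∧ IsLatt Λ' ∧
    VirtuallyIsomorphic Γ Γ' ∧ VirtuallyIsomorphic (F2 × F2) Λ'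

/-- Disproof of Q1: a countable group measure equivalent to `F₂ × F₂` which belongs to neither of the two
classes. -/
theorem result : ∃ (Γ : Type) (_ : Group Γ), Countable Γ ∧ MeasureEquivalent Γ (F2 × F2) ∧
    ¬ ClassOne Γ ∧ ¬ ClassTwo Γ := by
  refine ⟨GG, inferInstance, inferInstance, me_GG, t_C1 t_VI1 t_IRR t_NFREE, ?_⟩
  rintro ⟨G, i1, i2, i3, i4, i5, Γ', Λ', h1, h2, h3, h4⟩
  exact t_C2 t_VI1 t_VIFG t_NFG t_CHAIN t_LIE t_LAT1 t_LAT2
    ⟨G, i1, i2, i3, i4, i5, Γ', Λ', isLattice_of_isLatt Γ' h1, isLattice_of_isLatt Λ' h2, h3, h4⟩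

end Pool.Agent.Results.MP_6c9f91_an.Disproof
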